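import Pool.Agent.helper68.FY.Spec

/-!
# Project fy, row WS
-/

set_option autoImplicit false

namespace Pool.Agent.helper68.FY

open Finset

theorem WS_dt_am (g h : V4) : dt (am g h) = dt g * dt h := by
  simp only [dt, am, Matrix.cons_val_zero, Matrix.cons_val_one, Matrix.cons_val]
  ring

/-- primitive part -/
theorem WS_ex (A : V4) (hA : dt A ≠ 0) :
    ∃ (t : ℤ) (γ : V4), t ≠ 0 ∧ prim γ ∧ A = t • γ := by
  set t : ℕ := Finset.univ.gcd (fun i : Fin 4 => (A i).natAbs) with ht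
  have hdvd : ∀ i, (t : ℤ) ∣ A i := by
    intro i
    rw [Int.natCast_dvd]
    exact Finset.gcd_dvd (Finset.mem_univ i)
  have ht0 : t ≠ 0 := by
    intro h0
    apply hA
    have h1 : ∀ i, A i = 0 := by
      intro i
      have h2 := hdvd i
      rw [h0, Nat.cast_zero, zero_dvd_iff] at h2
      exact h2
    unfold dt
    rw [h1 0, h1 1]
    ring
  choose γ hγ using hdvd
  refine ⟨(t : ℤ), γ, Nat.cast_ne_zero.mpr ht0, ?_, ?_⟩
  · intro u hu
    have h3 : u.natAbs * t ∣ t := by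
      rw [ht]
      apply Finset.dvd_gcd
      intro i _
      rw [← ht]
      obtain ⟨v, hv⟩ := hu i
      rw [← Int.natCast_dvd_natCast, Int.dvd_natAbs, Nat.cast_mul, Int.natCast_natAbs]
      rw [hγ i, hv, mul_comm (t : ℤ)]
      exact mul_dvd_mul ((abs_dvd u _).mpr (Dvd.intro v rfl)) dvd_rfl
    have h4 : u.natAbs * t ∣ 1 * t := by rw [one_mul]; exact h3
    have h5 := Nat.dvd_of_mul_dvd_mul_right (Nat.pos_of_ne_zero ht0) h4
    exact Nat.dvd_one.mp h5
  · funext i
    rw [Pi.smul_apply, smul_eq_mul]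
    exact hγ i

theorem WS_mem_box (g : V4) (G : ℕ) : g ∈ box G ↔ ∀ i, |g i| ≤ (G : ℤ) := by
  unfold box
  rw [Fintype.mem_piFinset]
  constructor
  · intro h i
    have := h i
    rw [Finset.mem_Icc] at this
    exact abs_le.mpr this
  · intro h i
    rw [Finset.mem_Icc]
    exact abs_le.mp (h i)

theorem WS_nm_le (g : V4) (G : ℕ) : nm g ≤ G ↔ ∀ i, |g i| ≤ (G : ℤ) := by
  unfold nm
  rw [Finset.sup_le_iff]
  constructor
  · intro h i
    have := h i (Finset.mem_univ i)
    rw [Int.abs_eq_natAbs]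
    exact_mod_cast this
  · intro h i _
    have := h i
    rw [Int.abs_eq_natAbs] at this
    exact_mod_cast this

theorem WS_am_le (Q L : ℕ) (g h : V4) (hg : g ∈ NB Q L) (hh : h ∈ NB Q L) :
    ∀ i, |am g h i| ≤ ((2 * Q * L : ℕ) : ℤ) := by
  unfold NB at hg hh
  rw [Finset.mem_filter] at hg hh
  obtain ⟨hg0, -, hg2, hg3⟩ := hg
  obtain ⟨hh0, -, hh2, hh3⟩ := hh
  rw [WS_mem_box] at hg0 hh0
  have key : ∀ a b c d : ℤ, |a| ≤ (L : ℤ) → |b| ≤ (Q : ℤ) → |c| ≤ (Q : ℤ) → |d| ≤ (L : ℤ) →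
      |a * b - c * d| ≤ ((2 * Q * L : ℕ) : ℤ) := by
    intro a b c d ha hb hc hd
    have h1 : |a * b| ≤ (L : ℤ) * Q := by
      rw [abs_mul]; exact mul_le_mul ha hb (abs_nonneg _) (by positivity)
    have h2 : |c * d| ≤ (Q : ℤ) * L := by
      rw [abs_mul]; exact mul_le_mul hc hd (abs_nonneg _) (by positivity)
    have h3 := abs_sub (a * b) (c * d)
    push_cast
    calc |a * b - c * d| ≤ |a * b| + |c * d| := h3
      _ ≤ (L : ℤ) * Q + (Q : ℤ) * L := add_le_add h1 h2
      _ = 2 * Q * L := by ring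
  intro i
  fin_cases i
  · exact key (g 3) (h 0) (g 1) (h 2) hg3 (hh0 0) (hg0 1) hh2
  · exact key (g 3) (h 1) (g 1) (h 3) hg3 (hh0 1) (hg0 1) hh3
  · have := key (g 2) (h 0) (g 0) (h 2) hg2 (hh0 0) (hg0 0) hh2
    rw [abs_sub_comm] at this
    exact this
  · have := key (g 2) (h 1) (g 0) (h 3) hg2 (hh0 1) (hg0 0) hh3
    rw [abs_sub_comm] at this
    exact this

theorem WS (h1 : FC_stmt) : WS_stmt := by
  classical
  intro Q L D f s hL hLQ hD hf hfp hsum
  set M : ℕ := 2 * Q * L with hM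
  have hM1 : 1 ≤ M := by
    rw [hM]
    have : 1 ≤ Q := le_trans hL hLQ
    nlinarith
  have hs : 0 ≤ s := by
    have h2 := hsum 1 le_rfl hM1
    have h3 : 0 ≤ ∑ h ∈ PB 1, f h := Finset.sum_nonneg (fun h _ => hf h)
    simpa using le_trans h3 h2
  -- the primitive part
  have hex : ∀ A : V4, ∃ (t : ℤ) (γ : V4), dt A ≠ 0 → (t ≠ 0 ∧ prim γ ∧ A = t • γ) := by
    intro A
    by_cases hA : dt A ≠ 0
    · obtain ⟨t, γ, h⟩ := WS_ex A hA
      exact ⟨t, γ, fun _ => h⟩
    · exact ⟨0, 0, fun h => absurd h hA⟩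
  choose τ π hπ using hex
  have hdt : ∀ w ∈ NB Q L ×ˢ NB Q L, dt (am w.2 w.1) ≠ 0 := by
    intro w hw
    rw [Finset.mem_product] at hw
    rw [WS_dt_am]
    have h2 := (Finset.mem_filter.mp hw.1).2.1
    have h3 := (Finset.mem_filter.mp hw.2).2.1
    exact mul_ne_zero h3 h2
  have hmaps : ∀ w ∈ NB Q L ×ˢ NB Q L, π (am w.2 w.1) ∈ PB M ∧
      f (am w.2 w.1) ≤ f (π (am w.2 w.1)) := by
    intro w hw
    have hA := hdt w hw
    obtain ⟨ht, hp, hAe⟩ := hπ _ hA
    rw [Finset.mem_product] at hw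
    have hle := WS_am_le Q L w.2 w.1 hw.2 hw.1
    rw [← hM] at hle
    set A := am w.2 w.1 with hAdef
    have hent : ∀ i, A i = τ A * π A i := by
      intro i
      conv_lhs => rw [hAe]
      rw [Pi.smul_apply, smul_eq_mul]
    have ht1 : 1 ≤ |τ A| := Int.one_le_abs ht
    have hdt2 : dt (π A) ≠ 0 := by
      intro h0
      apply hA
      have : dt A = τ A ^ 2 * dt (π A) := by
        unfold dt
        rw [hent 0, hent 1, hent 2, hent 3]
        ring
      rw [this, h0, mul_zero]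
    have hπle : ∀ i, |π A i| ≤ (M : ℤ) := by
      intro i
      refine le_trans ?_ (hle i)
      rw [hent i, abs_mul]
      exact le_mul_of_one_le_left (abs_nonneg _) ht1
    have hτle : |τ A| ≤ (M : ℤ) := by
      have hne : ∃ i, π A i ≠ 0 := by
        by_contra hcon
        push Not at hcon
        apply hdt2
        unfold dt
        rw [hcon 0, hcon 1]
        ring
      obtain ⟨i, hi⟩ := hne
      refine le_trans ?_ (hle i)
      rw [hent i, abs_mul]
      exact le_mul_of_one_le_right (abs_nonneg _) (Int.one_le_abs hi)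
    refine ⟨?_, ?_⟩
    · unfold PB
      rw [Finset.mem_filter]
      exact ⟨(WS_mem_box _ _).mpr hπle, hdt2, hp⟩
    · have h5 := hfp (π A) (τ A) hp ht (by rw [hM] at hτle; push_cast at hτle; exact hτle)
      rw [← hAe] at h5
      exact h5
  set C : ℕ := 1536 * D ^ 2 * Q ^ 3 * L with hC
  have hfib : ∀ γ ∈ PB M,
      ((((NB Q L ×ˢ NB Q L).filter (fun w => π (am w.2 w.1) = γ)).card : ℕ) : ℝ) * (nm γ : ℝ) ^ 2 ≤ C := by
    intro γ hγ
    unfold PB at hγ
    rw [Finset.mem_filter] at hγ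
    have h6 := h1 Q L D γ hL hLQ hγ.2.2 hγ.2.1 hD
      ((NB Q L ×ˢ NB Q L).filter (fun w => π (am w.2 w.1) = γ)) (by
        intro w hw
        rw [Finset.mem_filter] at hw
        obtain ⟨hw1, hw2⟩ := hw
        obtain ⟨-, -, hAe⟩ := hπ _ (hdt w hw1)
        rw [Finset.mem_product] at hw1
        refine ⟨hw1.1, hw1.2, τ (am w.2 w.1), ?_⟩
        rw [hw2] at hAe
        exact hAe)
    rw [hC]
    exact_mod_cast h6
  have hnm1 : ∀ γ ∈ PB M, 1 ≤ nm γ := by
    intro γ hγ
    unfold PB at hγ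
    rw [Finset.mem_filter] at hγ
    by_contra hcon
    have h7 : nm γ ≤ 0 := by omega
    rw [WS_nm_le] at h7
    apply hγ.2.1
    have h8 : ∀ i, γ i = 0 := fun i => abs_nonpos_iff.mp (by simpa using h7 i)
    unfold dt
    rw [h8 0, h8 1]
    ring
  -- the dyadic sum
  have hdy : ∑ γ ∈ PB M, f γ / (nm γ : ℝ) ^ 2 ≤ 4 * s * (1 + Nat.log 2 M) := by
    have hmap2 : ∀ γ ∈ PB M, Nat.log 2 (nm γ) ∈ Finset.range (Nat.log 2 M + 1) := by
      intro γ hγ
      rw [Finset.mem_range, Nat.lt_succ_iff]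
      apply Nat.log_mono_right
      rw [WS_nm_le]
      unfold PB at hγ
      rw [Finset.mem_filter] at hγ
      exact (WS_mem_box _ _).mp hγ.1
    rw [← Finset.sum_fiberwise_of_maps_to hmap2]
    calc ∑ j ∈ Finset.range (Nat.log 2 M + 1),
          ∑ γ ∈ (PB M).filter (fun γ => Nat.log 2 (nm γ) = j), f γ / (nm γ : ℝ) ^ 2
        ≤ ∑ j ∈ Finset.range (Nat.log 2 M + 1), 4 * s := by
          apply Finset.sum_le_sum
          intro j _
          have h9 : ∀ γ ∈ (PB M).filter (fun γ => Nat.log 2 (nm γ) = j),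
              f γ / (nm γ : ℝ) ^ 2 ≤ f γ / ((2 : ℝ) ^ j) ^ 2 := by
            intro γ hγ
            rw [Finset.mem_filter] at hγ
            have h10 : 2 ^ j ≤ nm γ := by
              rw [← hγ.2]
              exact Nat.pow_log_le_self 2 (by have := hnm1 γ hγ.1; omega)
            have h11 : (2 : ℝ) ^ j ≤ (nm γ : ℝ) := by exact_mod_cast h10
            apply div_le_div_of_nonneg_left (hf γ) (by positivity)
            exact pow_le_pow_left₀ (by positivity) h11 2
          have h12 : (PB M).filter (fun γ => Nat.log 2 (nm γ) = j) ⊆ PB (min (2 ^ (j + 1)) M) := by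
            intro γ hγ
            rw [Finset.mem_filter] at hγ
            obtain ⟨hγ1, hγ2⟩ := hγ
            unfold PB at hγ1 ⊢
            rw [Finset.mem_filter] at hγ1 ⊢
            refine ⟨?_, hγ1.2⟩
            rw [WS_mem_box]
            rw [← WS_nm_le]
            apply le_min
            · have := Nat.lt_pow_succ_log_self (b := 2) (by norm_num) (nm γ)
              rw [hγ2] at this
              exact this.le
            · rw [WS_nm_le]
              exact (WS_mem_box _ _).mp hγ1.1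
          have h13 := hsum (min (2 ^ (j + 1)) M) (le_min Nat.one_le_two_pow hM1) (min_le_right _ _)
          have h14 : ((min (2 ^ (j + 1)) M : ℕ) : ℝ) ≤ (2 : ℝ) ^ (j + 1) := by
            have : min (2 ^ (j + 1)) M ≤ 2 ^ (j + 1) := min_le_left _ _
            exact_mod_cast this
          have hpos : (0 : ℝ) < ((2 : ℝ) ^ j) ^ 2 := by positivity
          calc ∑ γ ∈ (PB M).filter (fun γ => Nat.log 2 (nm γ) = j), f γ / (nm γ : ℝ) ^ 2
              ≤ ∑ γ ∈ (PB M).filter (fun γ => Nat.log 2 (nm γ) = j), f γ / ((2 : ℝ) ^ j) ^ 2 :=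
                Finset.sum_le_sum h9
            _ = (∑ γ ∈ (PB M).filter (fun γ => Nat.log 2 (nm γ) = j), f γ) / ((2 : ℝ) ^ j) ^ 2 := by
                rw [Finset.sum_div]
            _ ≤ (∑ γ ∈ PB (min (2 ^ (j + 1)) M), f γ) / ((2 : ℝ) ^ j) ^ 2 := by
                apply div_le_div_of_nonneg_right _ hpos.le
                exact Finset.sum_le_sum_of_subset_of_nonneg h12 (fun γ _ _ => hf γ)
            _ ≤ (s * ((2 : ℝ) ^ (j + 1)) ^ 2) / ((2 : ℝ) ^ j) ^ 2 := by
                apply div_le_div_of_nonneg_right _ hpos.le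
                refine le_trans h13 ?_
                apply mul_le_mul_of_nonneg_left _ hs
                exact pow_le_pow_left₀ (Nat.cast_nonneg _) h14 2
            _ = 4 * s := by
                rw [pow_succ (2 : ℝ) j]
                field_simp
                ring
      _ = 4 * s * (1 + Nat.log 2 M) := by
          rw [Finset.sum_const, Finset.card_range, nsmul_eq_mul]
          push_cast
          ring
  calc ∑ w ∈ NB Q L ×ˢ NB Q L, f (am w.2 w.1)
      ≤ ∑ w ∈ NB Q L ×ˢ NB Q L, f (π (am w.2 w.1)) :=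
        Finset.sum_le_sum (fun w hw => (hmaps w hw).2)
    _ = ∑ γ ∈ PB M, ∑ w ∈ (NB Q L ×ˢ NB Q L).filter (fun w => π (am w.2 w.1) = γ),
          f (π (am w.2 w.1)) := by
        rw [Finset.sum_fiberwise_of_maps_to (fun w hw => (hmaps w hw).1)]
    _ = ∑ γ ∈ PB M, (((NB Q L ×ˢ NB Q L).filter (fun w => π (am w.2 w.1) = γ)).card : ℝ) * f γ := by
        apply Finset.sum_congr rfl
        intro γ _
        rw [← nsmul_eq_mul, ← Finset.sum_const]
        apply Finset.sum_congr rfl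
        intro w hw
        rw [(Finset.mem_filter.mp hw).2]
    _ ≤ ∑ γ ∈ PB M, (C : ℝ) * (f γ / (nm γ : ℝ) ^ 2) := by
        apply Finset.sum_le_sum
        intro γ hγ
        have h15 := hfib γ hγ
        have h16 : (0 : ℝ) < (nm γ : ℝ) ^ 2 := by
          have := hnm1 γ hγ
          positivity
        rw [← mul_div_assoc, le_div_iff₀ h16]
        calc _ = ((((NB Q L ×ˢ NB Q L).filter (fun w => π (am w.2 w.1) = γ)).card : ℕ) : ℝ) *
              (nm γ : ℝ) ^ 2 * f γ := by ring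
          _ ≤ (C : ℝ) * f γ := mul_le_mul_of_nonneg_right h15 (hf γ)
    _ = (C : ℝ) * ∑ γ ∈ PB M, f γ / (nm γ : ℝ) ^ 2 := by rw [Finset.mul_sum]
    _ ≤ (C : ℝ) * (4 * s * (1 + Nat.log 2 M)) :=
        mul_le_mul_of_nonneg_left hdy (Nat.cast_nonneg _)
    _ = 6144 * (D : ℝ) ^ 2 * (Q : ℝ) ^ 3 * L * s * (1 + Nat.log 2 M) := by
        rw [hC]
        push_cast
        ring

end Pool.Agent.helper68.FY
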